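import Mathlib

/-!
# Commuting CP maps without dilation: the algebraic part
-/

set_option autoImplicit false
set_option linter.unusedSectionVars false

open Matrix

namespace Pool.Agent.Q190.ND

variable {S : Type*} [Ring S] [StarRing S] [Algebra ℂ S] [StarModule ℂ S]
variable {n : Type*} [Fintype n] [DecidableEq n]

/-- the entry extraction `∑_c θ(e_{ca}) ζ e_{bc}` -/
def ent (ι : Matrix n n ℂ →⋆ₙₐ[ℂ] S) (θ : S →⋆ₙₐ[ℂ] S) (a b : n) (ζ : S) : S :=
  ∑ c, θ (ι (single c a 1)) * ζ * ι (single b c 1)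

/-- intertwiners -/
structure Intw (ι : Matrix n n ℂ →⋆ₙₐ[ℂ] S) (θ : S →⋆ₙₐ[ℂ] S) (z : S) : Prop where
  comm : ∀ M, θ (ι M) * z = z * ι M
  right : z * ι 1 = z

lemma mul_single_eq (M : Matrix n n ℂ) (c a : n) :
    M * single c a 1 = ∑ d, M d c • single d a (1 : ℂ) := by
  ext i j
  rw [Matrix.sum_apply]
  simp only [Matrix.smul_apply, Matrix.mul_apply, Matrix.single_apply]
  by_cases hj : a = j
  · subst hj
    rw [Finset.sum_eq_single c, Finset.sum_eq_single i]
    · simp
    · intro b _ hb; simp [hb]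
    · simp
    · intro b _ hb; simp [hb.symm]
    · simp
  · simp [hj]

lemma single_mul_eq (M : Matrix n n ℂ) (b d : n) :
    single b d 1 * M = ∑ c, M d c • single b c (1 : ℂ) := by
  ext i j
  rw [Matrix.sum_apply]
  simp only [Matrix.smul_apply, Matrix.mul_apply, Matrix.single_apply]
  by_cases hj : b = i
  · subst hj
    rw [Finset.sum_eq_single d, Finset.sum_eq_single j]
    · simp
    · intro b _ hb; simp [hb]
    · simp
    · intro b _ hb; simp [hb.symm]
    · simp
  · simp [hj]

lemma sum_single : ∑ c : n, single c c (1 : ℂ) = (1 : Matrix n n ℂ) := by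
  ext i j
  rw [Matrix.sum_apply]
  simp only [Matrix.single_apply, Matrix.one_apply]
  by_cases h : i = j
  · subst h
    simp
  · rw [if_neg h]
    refine Finset.sum_eq_zero fun c _ => if_neg ?_
    rintro ⟨rfl, rfl⟩
    exact h rfl

lemma sss (R : Matrix n n ℂ) (c a b : n) :
    single c a 1 * R * single b c 1 = R a b • single c c (1 : ℂ) := by
  rw [single_mul_eq, Finset.sum_mul, Finset.sum_eq_single b]
  · rw [smul_mul_assoc, single_mul_single_same, one_mul]
  · intro d _ hd
    rw [smul_mul_assoc, single_mul_single_of_ne _ _ _ _ hd, smul_zero]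
  · simp

variable {ι : Matrix n n ℂ →⋆ₙₐ[ℂ] S} {θ θ' : S →⋆ₙₐ[ℂ] S}

lemma ent_intw (a b : n) (ζ : S) : Intw ι θ (ent ι θ a b ζ) := by
  constructor
  · intro M
    unfold ent
    rw [Finset.mul_sum, Finset.sum_mul]
    have h1 : ∀ c, θ (ι M) * (θ (ι (single c a 1)) * ζ * ι (single b c 1)) =
        ∑ d, M d c • (θ (ι (single d a 1)) * ζ * ι (single b c 1)) := by
      intro c
      rw [← mul_assoc, ← mul_assoc, ← map_mul, ← map_mul, mul_single_eq, map_sum, map_sum,
        Finset.sum_mul, Finset.sum_mul]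
      refine Finset.sum_congr rfl fun d _ => ?_
      rw [map_smul, map_smul, smul_mul_assoc, smul_mul_assoc]
    have h2 : ∀ d, θ (ι (single d a 1)) * ζ * ι (single b d 1) * ι M =
        ∑ c, M d c • (θ (ι (single d a 1)) * ζ * ι (single b c 1)) := by
      intro d
      rw [mul_assoc, ← map_mul, single_mul_eq, map_sum, Finset.mul_sum]
      refine Finset.sum_congr rfl fun c _ => ?_
      rw [map_smul, mul_smul_comm]
    simp only [h1, h2]
    rw [Finset.sum_comm]
  · unfold ent
    rw [Finset.sum_mul]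
    refine Finset.sum_congr rfl fun c _ => ?_
    rw [mul_assoc, ← map_mul, mul_one]

lemma ent_mul {z : S} (hz : Intw ι θ z) (a b : n) (R : Matrix n n ℂ) :
    ent ι θ a b (z * ι R) = R a b • z := by
  unfold ent
  have h1 : ∀ c, θ (ι (single c a 1)) * (z * ι R) * ι (single b c 1) =
      R a b • (z * ι (single c c 1)) := by
    intro c
    rw [← mul_assoc, hz.comm, mul_assoc, mul_assoc, ← map_mul, ← map_mul, ← mul_assoc, sss,
      map_smul, mul_smul_comm]
  simp only [h1]
  rw [← Finset.smul_sum, ← Finset.mul_sum, ← map_sum, sum_single, hz.right]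

lemma ent_sum {κ : Type*} (s : Finset κ) (a b : n) (f : κ → S) :
    ent ι θ a b (∑ k ∈ s, f k) = ∑ k ∈ s, ent ι θ a b (f k) := by
  unfold ent
  simp only [Finset.mul_sum, Finset.sum_mul]
  rw [Finset.sum_comm]

lemma Intw.mul {z y : S} (hz : Intw ι θ z) (hy : Intw ι θ' y) :
    Intw ι (θ'.comp θ) (θ' z * y) := by
  constructor
  · intro M
    show θ' (θ (ι M)) * (θ' z * y) = _
    rw [← mul_assoc, ← map_mul, hz.comm, map_mul, mul_assoc, hy.comm, mul_assoc]
  · rw [mul_assoc, hy.right]

/-- The Kraus decomposition inside a dilation. -/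
theorem kraus (hproper : ∀ x : S, star x * x = 0 → x = 0) {κ : Type*} [Fintype κ] [DecidableEq κ]
    (K : κ → Matrix n n ℂ) (a b : κ → n) (l : κ → ℂ)
    (hdual : ∀ j k, l j * K k (a j) (b j) = if j = k then 1 else 0)
    (η : S) (h1 : η * ι 1 = η) (h2 : θ (ι 1) * η = η)
    (h3 : ∀ M, star η * θ (ι M) * η = ι (∑ k, (K k)ᴴ * M * K k)) :
    ∃ x : κ → S, (∀ k, Intw ι θ (x k)) ∧ (∀ j k, star (x j) * x k = if j = k then ι 1 else 0) ∧
      η = ∑ k, x k * ι (K k) := by
  set x : κ → S := fun k => l k • ent ι θ (a k) (b k) η with hx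
  have hxi : ∀ k, Intw ι θ (x k) := by
    intro k
    have := ent_intw (ι := ι) (θ := θ) (a k) (b k) η
    constructor
    · intro M
      rw [hx]
      simp only
      rw [mul_smul_comm, this.comm, smul_mul_assoc]
    · rw [hx]
      simp only
      rw [smul_mul_assoc, this.right]
  have hηx : ∀ k, star η * x k = ι (K k)ᴴ := by
    intro k
    have e1 : ∀ c, star η * (θ (ι (single c (a k) 1)) * η * ι (single (b k) c 1)) =
        ∑ j, K j (a k) (b k) • (ι ((K j)ᴴ * single c c 1)) := by
      intro c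
      rw [← mul_assoc, ← mul_assoc, h3, ← map_mul, Finset.sum_mul, map_sum]
      refine Finset.sum_congr rfl fun j _ => ?_
      rw [mul_assoc, mul_assoc, ← mul_assoc (single c (a k) 1), sss, mul_smul_comm, map_smul]
    have e2 : star η * ent ι θ (a k) (b k) η = ∑ j, K j (a k) (b k) • ι (K j)ᴴ := by
      unfold ent
      rw [Finset.mul_sum]
      simp only [e1]
      rw [Finset.sum_comm]
      refine Finset.sum_congr rfl fun j _ => ?_
      rw [← Finset.smul_sum, ← map_sum, ← Finset.mul_sum, sum_single, mul_one]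
    rw [hx]
    simp only
    rw [mul_smul_comm, e2, Finset.smul_sum, Finset.sum_eq_single k]
    · rw [smul_smul, hdual, if_pos rfl, one_smul]
    · intro j _ hj
      rw [smul_smul, hdual, if_neg hj.symm, zero_smul]
    · simp
  have hxx : ∀ j k, star (x j) * x k = if j = k then ι 1 else 0 := by
    intro j k
    have e1 : star (ent ι θ (a j) (b j) η) * x k = star (K k (a j) (b j)) • ι 1 := by
      unfold ent
      rw [star_sum, Finset.sum_mul]
      have e2 : ∀ c, star (θ (ι (single c (a j) 1)) * η * ι (single (b j) c 1)) * x k =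
          star (K k (a j) (b j)) • ι (single c c 1) := by
        intro c
        rw [star_mul, star_mul, ← map_star, ← map_star, ← map_star, mul_assoc, mul_assoc]
        rw [(hxi k).comm, ← mul_assoc (star η), hηx, ← map_mul, ← map_mul]
        have e3 : star (single (b j) c (1 : ℂ)) * ((K k)ᴴ * star (single c (a j) (1 : ℂ))) =
            star (K k (a j) (b j)) • single c c (1 : ℂ) := by
          rw [star_eq_conjTranspose, star_eq_conjTranspose, conjTranspose_single,
            conjTranspose_single, star_one, ← mul_assoc, sss, conjTranspose_apply]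
        rw [e3, map_smul]
      simp only [e2]
      rw [← Finset.smul_sum, ← map_sum, sum_single]
    rw [hx]
    simp only
    rw [star_smul, smul_mul_assoc]
    rw [show l k • ent ι θ (a k) (b k) η = x k from rfl, e1, smul_smul, ← star_mul, mul_comm,
      hdual]
    split_ifs with h
    · rw [star_one, one_smul]
    · rw [star_zero, zero_smul]
  refine ⟨x, hxi, hxx, ?_⟩
  have hηη : star η * η = ι (∑ k, (K k)ᴴ * K k) := by
    have := h3 1
    rw [mul_assoc, h2] at this
    rw [this]
    simp only [mul_one]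
  have hs1 : star η * ∑ k, x k * ι (K k) = ι (∑ k, (K k)ᴴ * K k) := by
    rw [Finset.mul_sum, map_sum]
    refine Finset.sum_congr rfl fun k _ => ?_
    rw [← mul_assoc, hηx, ← map_mul]
  have hs2 : star (∑ k, x k * ι (K k)) * η = ι (∑ k, (K k)ᴴ * K k) := by
    have := congrArg star hs1
    rw [star_mul, star_star, ← map_star] at this
    rw [this, star_eq_conjTranspose, conjTranspose_sum]
    congr 1
    refine Finset.sum_congr rfl fun k _ => ?_
    rw [conjTranspose_mul, conjTranspose_conjTranspose]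
  have hs3 : star (∑ k, x k * ι (K k)) * ∑ k, x k * ι (K k) = ι (∑ k, (K k)ᴴ * K k) := by
    rw [star_sum, Finset.sum_mul_sum, map_sum]
    refine Finset.sum_congr rfl fun j _ => ?_
    rw [Finset.sum_eq_single j]
    · rw [star_mul, mul_assoc, ← mul_assoc (star (x j)), hxx, if_pos rfl, ← map_star,
        ← map_mul, ← map_mul, one_mul, star_eq_conjTranspose]
    · intro k _ hk
      rw [star_mul, mul_assoc, ← mul_assoc (star (x j)), hxx, if_neg hk.symm, zero_mul, mul_zero]
    · simp
  have := hproper (η - ∑ k, x k * ι (K k)) (by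
    rw [star_sub, sub_mul, mul_sub, mul_sub, hηη, hs1, hs2, hs3]
    simp)
  exact sub_eq_zero.1 this

/-- Uniqueness of the coefficients. -/
theorem coeff_unique {κ : Type*} [Fintype κ] [DecidableEq κ]
    (R : κ → Matrix n n ℂ) (a b : κ → n) (l : κ → ℂ)
    (hdual : ∀ j k, l j * R k (a j) (b j) = if j = k then 1 else 0)
    (z z' : κ → S) (hz : ∀ k, Intw ι θ (z k)) (hz' : ∀ k, Intw ι θ (z' k))
    (h : ∑ k, z k * ι (R k) = ∑ k, z' k * ι (R k)) (k : κ) : z k = z' k := by
  have key : ∀ (u : κ → S), (∀ k, Intw ι θ (u k)) →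
      l k • ent ι θ (a k) (b k) (∑ j, u j * ι (R j)) = u k := by
    intro u hu
    rw [ent_sum, Finset.smul_sum, Finset.sum_eq_single k]
    · rw [ent_mul (hu k), smul_smul, hdual, if_pos rfl, one_smul]
    · intro j _ hj
      rw [ent_mul (hu j), smul_smul, hdual, if_neg hj.symm, zero_smul]
    · simp
  rw [← key z hz, h, key z' hz']

lemma Intw.neg {z : S} (hz : Intw ι θ z) : Intw ι θ (-z) :=
  ⟨fun M => by rw [mul_neg, hz.comm, neg_mul], by rw [neg_mul, hz.right]⟩

lemma Intw.left {z : S} (hz : Intw ι θ z) : θ (ι 1) * z = z := by rw [hz.comm, hz.right]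

/-- The compressed projections multiply. -/
lemma eta_mul {q w : Matrix n n ℂ} (hqw : q = 1 - w) (hw : θ (ι q) * ι w = 0)
    (h1 : θ' (ι 1) * ι 1 = ι 1) :
    θ' (θ (ι q) * ι 1) * (θ' (ι q) * ι 1) = θ' (θ (ι q)) * ι 1 := by
  have e1 : θ (ι q) * ι q = θ (ι q) * ι 1 := by
    conv_lhs => rw [show ι q = ι 1 - ι w by rw [← map_sub, ← hqw]]
    rw [mul_sub]
    rw [show ι 1 - ι w = ι q by rw [← map_sub, ← hqw], hw, sub_zero]
  rw [← mul_assoc, ← map_mul, mul_assoc, ← map_mul, one_mul, e1, map_mul, mul_assoc, h1]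

end Pool.Agent.Q190.ND
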