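import Mathlib

/-!
# CP-semigroups over `ℕ³` and their dilations: definitions
-/

set_option autoImplicit false

open scoped InnerProductSpace ComplexOrder

namespace Pool.Agent.Q190.ND

universe u v

variable {H : Type u} [NormedAddCommGroup H] [InnerProductSpace ℂ H] [CompleteSpace H]
variable {K : Type v} [NormedAddCommGroup K] [InnerProductSpace ℂ K] [CompleteSpace K]

/-- `T` restricts to a unital normal completely positive map of the von Neumann algebra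
`A ⊆ B(H)`. Only the values of `T` on `A` matter. -/
structure IsUnitalNormalCP (A : VonNeumannAlgebra H) (T : (H →L[ℂ] H) → (H →L[ℂ] H)) : Prop where
  mem : ∀ a ∈ A, T a ∈ A
  add : ∀ a ∈ A, ∀ b ∈ A, T (a + b) = T a + T b
  smul : ∀ c : ℂ, ∀ a ∈ A, T (c • a) = c • T a
  /-- `T` is unital -/
  one : T 1 = 1
  contractive : ∀ a ∈ A, ‖T a‖ ≤ ‖a‖
  /-- complete positivity: `∑ ⟨ξ_i, T(a_i^* a_j) ξ_j⟩ ≥ 0` -/
  cp : ∀ (m : ℕ) (a : Fin m → (H →L[ℂ] H)) (ξ : Fin m → H), (∀ i, a i ∈ A) →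
    0 ≤ ∑ i, ∑ j, ⟪ξ i, T (star (a i) * a j) (ξ j)⟫_ℂ
  /-- normality: the functionals `a ↦ ⟨ξ, T(a) η⟩` are ultraweakly continuous on `A` -/
  normal : ∀ ξ η : H, ∃ ξ' η' : ℕ → H, Summable (fun k => ‖ξ' k‖ ^ 2) ∧
    Summable (fun k => ‖η' k‖ ^ 2) ∧ ∀ a ∈ A, ⟪ξ, T a η⟫_ℂ = ∑' k, ⟪ξ' k, a (η' k)⟫_ℂ

/-- `T₁, T₂, T₃` commute on `A`. -/
def Commuting (A : VonNeumannAlgebra H) (T₁ T₂ T₃ : (H →L[ℂ] H) → (H →L[ℂ] H)) : Prop :=
  ∀ a ∈ A, T₁ (T₂ a) = T₂ (T₁ a) ∧ T₁ (T₃ a) = T₃ (T₁ a) ∧ T₂ (T₃ a) = T₃ (T₂ a)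

/-- The semigroup over `ℕ³` of three maps: `T_s = T₁^{s₁} T₂^{s₂} T₃^{s₃}`. -/
def semigroup (T₁ T₂ T₃ : (H →L[ℂ] H) → (H →L[ℂ] H)) (s : Fin 3 → ℕ) (a : H →L[ℂ] H) :
    H →L[ℂ] H := T₁^[s 0] (T₂^[s 1] (T₃^[s 2] a))

/-- `V a V^*`: the operator `a` on `H` as an operator on the bigger space `K`, where `H` is
identified with the subspace `V H` of `K`. -/
noncomputable def extend (V : H →ₗᵢ[ℂ] K) (a : H →L[ℂ] H) : K →L[ℂ] K :=
  V.toContinuousLinearMap ∘L a ∘L ContinuousLinearMap.adjoint V.toContinuousLinearMap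

/-- `V^* b V`: the compression of `b` to `H`. -/
noncomputable def compress (V : H →ₗᵢ[ℂ] K) (b : K →L[ℂ] K) : H →L[ℂ] H :=
  ContinuousLinearMap.adjoint V.toContinuousLinearMap ∘L b ∘L V.toContinuousLinearMap

/-- `θ` is a semigroup over `ℕ³` of `*`-endomorphisms of the von Neumann algebra `B ⊆ B(K)`
(an E-semigroup; the endomorphisms need not be unital, and here they need not even be normal). -/
structure IsESemigroup (B : VonNeumannAlgebra K)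
    (θ : (Fin 3 → ℕ) → (K →L[ℂ] K) → (K →L[ℂ] K)) : Prop where
  mem : ∀ s, ∀ b ∈ B, θ s b ∈ B
  add : ∀ s, ∀ b ∈ B, ∀ c ∈ B, θ s (b + c) = θ s b + θ s c
  smul : ∀ s, ∀ z : ℂ, ∀ b ∈ B, θ s (z • b) = z • θ s b
  mul : ∀ s, ∀ b ∈ B, ∀ c ∈ B, θ s (b * c) = θ s b * θ s c
  star : ∀ s, ∀ b ∈ B, θ s (star b) = star (θ s b)
  id : ∀ b ∈ B, θ 0 b = b
  comp : ∀ s t, ∀ b ∈ B, θ s (θ t b) = θ (s + t) b

/-- `(V, K, B, θ)` is a dilation of the family `T` on `A ⊆ B(H)`: `H` is a subspace of `K` with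
projection `p = V V^* ∈ B`, `A = p B p` as a corner, and `T_s(a) = p θ_s(a) p` for `a ∈ A`. -/
structure IsDilation (A : VonNeumannAlgebra H)
    (T : (Fin 3 → ℕ) → (H →L[ℂ] H) → (H →L[ℂ] H)) (V : H →ₗᵢ[ℂ] K) (B : VonNeumannAlgebra K)
    (θ : (Fin 3 → ℕ) → (K →L[ℂ] K) → (K →L[ℂ] K)) : Prop where
  eSemigroup : IsESemigroup B θ
  extend_mem : ∀ a ∈ A, extend V a ∈ B
  compress_mem : ∀ b ∈ B, compress V b ∈ A
  dilates : ∀ s, ∀ a ∈ A, T s a = compress V (θ s (extend V a))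

end Pool.Agent.Q190.ND
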