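import Pool.Agent.Q190.ND.Alg

/-!
# The matrices of the example
-/

set_option autoImplicit false

open Matrix

namespace Pool.Agent.Q190.ND

/-- basis: 0 = ω, 1 = s₁, 2 = s₂, 3 = y, 4 = z, 5 = e₁, 6 = e₂, 7 = e₃, 8 = Ω -/
abbrev N9 := Fin 9

/-- integer matrix of the first operator of the first family -/
def g1 : Matrix N9 N9 ℤ := fun i j =>
  if (i, j) = (1, 0) ∨ (i, j) = (5, 3) ∨ (i, j) = (6, 4) then 1 else 0

/-- integer matrix of the second operator of the first family -/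
def g2 : Matrix N9 N9 ℤ := fun i j =>
  if (i, j) = (2, 0) ∨ (i, j) = (5, 4) then 1 else if (i, j) = (6, 3) then -1 else 0

/-- integer matrix of the operator of the second map -/
def gy : Matrix N9 N9 ℤ := fun i j =>
  if (i, j) = (3, 0) ∨ (i, j) = (5, 1) ∨ (i, j) = (6, 2) ∨ (i, j) = (7, 4) then 1 else 0

/-- integer matrix of the operator of the third map -/
def gz : Matrix N9 N9 ℤ := fun i j =>
  if (i, j) = (4, 0) ∨ (i, j) = (5, 1) ∨ (i, j) = (6, 2) ∨ (i, j) = (7, 3) then 1 else 0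

lemma g1y : g1 * gy = gy * g1 := by decide
lemma g2y : g2 * gy = -(gy * g2) := by decide
lemma g1z : g1 * gz = gz * g2 := by decide
lemma g2z : g2 * gz = gz * g1 := by decide
lemma gyz : gy * gz = gz * gy := by decide

/-- the projection onto the last basis vector -/
def gw : Matrix N9 N9 ℤ := fun i j => if (i, j) = (8, 8) then 1 else 0

lemma wg1 : gw * g1 = 0 := by decide
lemma wg2 : gw * g2 = 0 := by decide
lemma wgy : gw * gy = 0 := by decide
lemma wgz : gw * gz = 0 := by decide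
lemma g1w : g1 * gw = 0 := by decide
lemma g2w : g2 * gw = 0 := by decide
lemma gyw : gy * gw = 0 := by decide
lemma gzw : gz * gw = 0 := by decide

/-- the cast to complex matrices -/
def cst : Matrix N9 N9 ℤ →+* Matrix N9 N9 ℂ := (Int.castRingHom ℂ).mapMatrix

lemma cst_apply (M : Matrix N9 N9 ℤ) (i j : N9) : cst M i j = (M i j : ℂ) := rfl

/-- the matrix of the projection onto the last basis vector -/
noncomputable def w : Matrix N9 N9 ℂ := cst gw

lemma w_eq : w = single 8 8 1 := by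
  ext i j
  rw [w, cst_apply, gw, single_apply]
  by_cases h : i = 8 ∧ j = 8
  · obtain ⟨rfl, rfl⟩ := h
    simp
  · rw [if_neg, if_neg]
    · simp
    · rintro ⟨rfl, rfl⟩; exact h ⟨rfl, rfl⟩
    · intro h2
      rw [Prod.mk.injEq] at h2
      exact h h2

/-- complement -/
noncomputable def q : Matrix N9 N9 ℂ := 1 - w

/-- Kraus families of the three maps -/
noncomputable def K1 : Fin 2 → Matrix N9 N9 ℂ := ![(2 / 3 : ℂ) • cst g1, (2 / 3 : ℂ) • cst g2]
/-- Kraus families of the three maps -/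
noncomputable def KY : Fin 1 → Matrix N9 N9 ℂ := ![cst gy]
/-- Kraus families of the three maps -/
noncomputable def KZ : Fin 1 → Matrix N9 N9 ℂ := ![cst gz]

/-- the CP map of a Kraus family -/
noncomputable def Phi {κ : Type*} [Fintype κ] (K : κ → Matrix N9 N9 ℂ) (M : Matrix N9 N9 ℂ) :
    Matrix N9 N9 ℂ := ∑ k, (K k)ᴴ * M * K k

/-- the unital CP map made of `Φ` and the state of the last basis vector -/
noncomputable def TT {κ : Type*} [Fintype κ] (K : κ → Matrix N9 N9 ℂ) (M : Matrix N9 N9 ℂ) :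
    Matrix N9 N9 ℂ := Phi K M + M 8 8 • (1 - Phi K 1)

/-- the Kraus operators live on the complement of the last basis vector -/
def Cut {κ : Type*} (K : κ → Matrix N9 N9 ℂ) : Prop := ∀ k, w * K k = 0 ∧ K k * w = 0

lemma cut1 : Cut K1 := by
  intro k
  fin_cases k
  · constructor
    · show w * ((2 / 3 : ℂ) • cst g1) = 0
      rw [mul_smul_comm, w, ← map_mul, wg1, map_zero, smul_zero]
    · show ((2 / 3 : ℂ) • cst g1) * w = 0
      rw [smul_mul_assoc, w, ← map_mul, g1w, map_zero, smul_zero]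
  · constructor
    · show w * ((2 / 3 : ℂ) • cst g2) = 0
      rw [mul_smul_comm, w, ← map_mul, wg2, map_zero, smul_zero]
    · show ((2 / 3 : ℂ) • cst g2) * w = 0
      rw [smul_mul_assoc, w, ← map_mul, g2w, map_zero, smul_zero]

lemma cutY : Cut KY := by
  intro k
  fin_cases k
  constructor
  · show w * cst gy = 0
    rw [w, ← map_mul, wgy, map_zero]
  · show cst gy * w = 0
    rw [w, ← map_mul, gyw, map_zero]

lemma cutZ : Cut KZ := by
  intro k
  fin_cases k
  constructor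
  · show w * cst gz = 0
    rw [w, ← map_mul, wgz, map_zero]
  · show cst gz * w = 0
    rw [w, ← map_mul, gzw, map_zero]

lemma wH : wᴴ = w := by
  rw [w_eq, conjTranspose_single, star_one]

lemma ww : w * w = w := by
  rw [w_eq, single_mul_single_same, one_mul]

lemma qH : qᴴ = q := by
  rw [q, conjTranspose_sub, conjTranspose_one, wH]

lemma Phi_q {κ : Type*} [Fintype κ] {K : κ → Matrix N9 N9 ℂ} (hK : Cut K)
    (M : Matrix N9 N9 ℂ) : Phi K (q * M * q) = Phi K M := by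
  unfold Phi
  refine Finset.sum_congr rfl fun k _ => ?_
  have h1 : q * K k = K k := by rw [q, sub_mul, one_mul, (hK k).1, sub_zero]
  have h2 : (K k)ᴴ * q = (K k)ᴴ := by
    have := congrArg conjTranspose h1
    rwa [conjTranspose_mul, qH] at this
  calc (K k)ᴴ * (q * M * q) * K k = ((K k)ᴴ * q) * M * (q * K k) := by noncomm_ring
    _ = _ := by rw [h1, h2]

lemma entry_w (M : Matrix N9 N9 ℂ) : w * M * w = M 8 8 • w := by
  rw [w_eq, sss]

lemma q88 (M : Matrix N9 N9 ℂ) : (q * M * q) 8 8 = 0 := by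
  have h : w * (q * M * q) * w = 0 := by
    have : w * q = 0 := by rw [q, mul_sub, mul_one, ww, sub_self]
    rw [← mul_assoc, ← mul_assoc, this]
    simp
  rw [entry_w] at h
  have := congrFun (congrFun h 8) 8
  rw [w_eq] at this
  simpa using this

lemma Phi_w {κ : Type*} [Fintype κ] {K : κ → Matrix N9 N9 ℂ} (hK : Cut K)
    (M : Matrix N9 N9 ℂ) : Phi K M * w = 0 := by
  unfold Phi
  rw [Finset.sum_mul]
  refine Finset.sum_eq_zero fun k _ => ?_
  rw [mul_assoc, (hK k).2, mul_zero]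

lemma TT_q {κ : Type*} [Fintype κ] {K : κ → Matrix N9 N9 ℂ} (hK : Cut K)
    (M : Matrix N9 N9 ℂ) : TT K (q * M * q) = Phi K M := by
  unfold TT
  rw [Phi_q hK, q88, zero_smul, add_zero]

lemma TT_one {κ : Type*} [Fintype κ] (K : κ → Matrix N9 N9 ℂ) : TT K 1 = 1 := by
  unfold TT
  rw [one_apply_eq, one_smul, add_sub_cancel]

/-- **No dilation.** -/
theorem no_dil {S : Type*} [Ring S] [StarRing S] [Algebra ℂ S] [StarModule ℂ S]
    (hproper : ∀ x : S, star x * x = 0 → x = 0)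
    (ι : Matrix N9 N9 ℂ →⋆ₙₐ[ℂ] S) (t1 t2 t3 : S →⋆ₙₐ[ℂ] S)
    (c12 : ∀ b, t1 (t2 b) = t2 (t1 b)) (c13 : ∀ b, t1 (t3 b) = t3 (t1 b))
    (c23 : ∀ b, t2 (t3 b) = t3 (t2 b))
    (h1 : ∀ M, ι 1 * t1 (ι M) * ι 1 = ι (TT K1 M))
    (h2 : ∀ M, ι 1 * t2 (ι M) * ι 1 = ι (TT KY M))
    (h3 : ∀ M, ι 1 * t3 (ι M) * ι 1 = ι (TT KZ M)) : ι 1 = 0 := by
  -- general facts for one map
  have pp : ι 1 * ι 1 = ι 1 := by rw [← map_mul, one_mul]
  have psa : star (ι 1) = ι 1 := by rw [← map_star, star_one]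
  have gen1 : ∀ {κ : Type} [Fintype κ] (K : κ → Matrix N9 N9 ℂ) (t : S →⋆ₙₐ[ℂ] S),
      (∀ M, ι 1 * t (ι M) * ι 1 = ι (TT K M)) → t (ι 1) * ι 1 = ι 1 := by
    intro κ _ K t h
    have e : star ((ι 1 - t (ι 1) * ι 1)) * (ι 1 - t (ι 1) * ι 1) = 0 := by
      have ht : t (ι 1) * t (ι 1) = t (ι 1) := by rw [← map_mul, pp]
      have h' := h 1
      rw [TT_one] at h'
      rw [star_sub, star_mul, psa, ← map_star, psa, sub_mul, mul_sub, mul_sub, pp, ← mul_assoc, h',
        mul_assoc (ι 1), ← mul_assoc (t (ι 1)), ht, ← mul_assoc, h']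
      simp
    exact (sub_eq_zero.1 (hproper _ e)).symm
  have gen2 : ∀ {κ : Type} [Fintype κ] (K : κ → Matrix N9 N9 ℂ) (t : S →⋆ₙₐ[ℂ] S), Cut K →
      (∀ M, ι 1 * t (ι M) * ι 1 = ι (TT K M)) → t (ι q) * ι w = 0 := by
    intro κ _ K t hK h
    apply hproper
    have hqq : q * q = q := by rw [q, sub_mul, mul_sub, mul_sub, ww]; simp
    have e1 : star (t (ι q) * ι w) * (t (ι q) * ι w) = ι w * t (ι q) * ι w := by
      rw [star_mul, ← map_star, ← map_star, ← map_star, star_eq_conjTranspose,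
        star_eq_conjTranspose, wH, qH, mul_assoc, ← mul_assoc (t (ι q)), ← map_mul, ← map_mul,
        hqq, mul_assoc]
    have e2 : ι w = ι w * ι 1 := by rw [← map_mul, mul_one]
    have e3 : ι w = ι 1 * ι w := by rw [← map_mul, one_mul]
    have e4 : ι w * t (ι q) * ι w = ι w * (ι 1 * t (ι q) * ι 1) * ι w := by
      have : ι w * (ι 1 * t (ι q) * ι 1) * ι w = (ι w * ι 1) * t (ι q) * (ι 1 * ι w) := by
        simp only [mul_assoc]
      rw [this, ← e2, ← e3]
    rw [e1, e4, h, show q = q * 1 * q by rw [mul_one, hqq], TT_q hK, mul_assoc, ← map_mul,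
      Phi_w hK, map_zero, mul_zero]
  have gen3 : ∀ {κ : Type} [Fintype κ] (K : κ → Matrix N9 N9 ℂ) (t : S →⋆ₙₐ[ℂ] S), Cut K →
      (∀ M, ι 1 * t (ι M) * ι 1 = ι (TT K M)) → ∀ M,
      star (t (ι q) * ι 1) * t (ι M) * (t (ι q) * ι 1) = ι (∑ k, (K k)ᴴ * M * K k) := by
    intro κ _ K t hK h M
    have := h (q * M * q)
    rw [TT_q hK] at this
    rw [show ι (∑ k, (K k)ᴴ * M * K k) = ι (Phi K M) from rfl, ← this, star_mul, psa,
      ← map_star, ← map_star, star_eq_conjTranspose, qH, map_mul, map_mul, map_mul, map_mul]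
    simp only [mul_assoc]
  have hqq : q * q = q := by rw [q, sub_mul, mul_sub, mul_sub, ww]; simp
  have gen4 : ∀ (t : S →⋆ₙₐ[ℂ] S), t (ι q) * ι 1 * ι 1 = t (ι q) * ι 1 := by
    intro t; rw [mul_assoc, pp]
  have gen5 : ∀ (t : S →⋆ₙₐ[ℂ] S), t (ι 1) * (t (ι q) * ι 1) = t (ι q) * ι 1 := by
    intro t; rw [← mul_assoc, ← map_mul, ← map_mul, one_mul]
  -- the three Kraus decompositions
  have v10 : g1 1 0 = 1 := by decide
  have v20 : g1 2 0 = 0 := by decide
  have w10 : g2 1 0 = 0 := by decide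
  have w20 : g2 2 0 = 1 := by decide
  obtain ⟨x, hx1, hx2, hx3⟩ := kraus hproper K1 ![1, 2] ![0, 0] ![3 / 2, 3 / 2] (by
    intro j k
    fin_cases j <;> fin_cases k <;>
      simp [K1, cst_apply, v10, v20, w10, w20]) (t1 (ι q) * ι 1) (gen4 t1) (gen5 t1)
    (gen3 K1 t1 cut1 h1)
  have y30 : gy 3 0 = 1 := by decide
  obtain ⟨ys, hy1, hy2, hy3⟩ := kraus hproper KY ![3] ![0] ![1] (by
    intro j k
    fin_cases j; fin_cases k
    simp [KY, cst_apply, y30]) (t2 (ι q) * ι 1) (gen4 t2) (gen5 t2)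
    (gen3 KY t2 cutY h2)
  have z40 : gz 4 0 = 1 := by decide
  obtain ⟨zs, hz1, hz2, hz3⟩ := kraus hproper KZ ![4] ![0] ![1] (by
    intro j k
    fin_cases j; fin_cases k
    simp [KZ, cst_apply, z40]) (t3 (ι q) * ι 1) (gen4 t3) (gen5 t3)
    (gen3 KZ t3 cutZ h3)
  set x0 := x 0 with hx0
  set x1 := x 1 with hx1'
  set y := ys 0 with hy0
  set z := zs 0 with hz0
  have ix0 : Intw ι t1 x0 := hx1 0
  have ix1 : Intw ι t1 x1 := hx1 1
  have iy : Intw ι t2 y := hy1 0
  have iz : Intw ι t3 z := hz1 0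
  have ex : t1 (ι q) * ι 1 = x0 * ι ((2 / 3 : ℂ) • cst g1) + x1 * ι ((2 / 3 : ℂ) • cst g2) := by
    rw [hx3, Fin.sum_univ_two]; rfl
  have ey : t2 (ι q) * ι 1 = y * ι (cst gy) := by
    rw [hy3, Fin.sum_univ_one]; rfl
  have ez : t3 (ι q) * ι 1 = z * ι (cst gz) := by
    rw [hz3, Fin.sum_univ_one]; rfl
  have u1 := gen1 K1 t1 h1
  have u2 := gen1 KY t2 h2
  have u3 := gen1 KZ t3 h3
  have w1 := gen2 K1 t1 cut1 h1
  have w2 := gen2 KY t2 cutY h2
  have w3 := gen2 KZ t3 cutZ h3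
  -- the products of the compressed projections
  have e12 : t2 (t1 (ι q) * ι 1) * (t2 (ι q) * ι 1) = t1 (t2 (ι q) * ι 1) * (t1 (ι q) * ι 1) := by
    rw [eta_mul (q := q) (w := w) rfl w1 u2, eta_mul (q := q) (w := w) rfl w2 u1, c12]
  have e13 : t3 (t1 (ι q) * ι 1) * (t3 (ι q) * ι 1) = t1 (t3 (ι q) * ι 1) * (t1 (ι q) * ι 1) := by
    rw [eta_mul (q := q) (w := w) rfl w1 u3, eta_mul (q := q) (w := w) rfl w3 u1, c13]
  have e23 : t3 (t2 (ι q) * ι 1) * (t3 (ι q) * ι 1) = t2 (t3 (ι q) * ι 1) * (t2 (ι q) * ι 1) := by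
    rw [eta_mul (q := q) (w := w) rfl w2 u3, eta_mul (q := q) (w := w) rfl w3 u2, c23]
  -- general product expansion
  have prod : ∀ (t t' : S →⋆ₙₐ[ℂ] S) (a b : S) (A B : Matrix N9 N9 ℂ), Intw ι t b →
      t (a * ι A) * (b * ι B) = (t a * b) * ι (A * B) := by
    intro t t' a b A B hb
    rw [map_mul, map_mul, mul_assoc, ← mul_assoc _ b, hb.comm]
    simp only [mul_assoc]
  have r12 : t1 y * x0 = t2 x0 * y ∧ t1 y * x1 = -(t2 x1 * y) := by
    have hL : t2 (t1 (ι q) * ι 1) * (t2 (ι q) * ι 1) =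
        (t2 x0 * y) * ι ((2 / 3 : ℂ) • cst (gy * g1)) +
          (-(t2 x1 * y)) * ι ((2 / 3 : ℂ) • cst (gy * g2)) := by
      rw [ex, ey, map_add, add_mul, prod t2 t2 _ _ _ _ iy, prod t2 t2 _ _ _ _ iy, smul_mul_assoc,
        smul_mul_assoc, ← map_mul, ← map_mul, g1y, g2y, map_neg, smul_neg, map_neg, mul_neg,
        neg_mul]
    have hR : t1 (t2 (ι q) * ι 1) * (t1 (ι q) * ι 1) =
        (t1 y * x0) * ι ((2 / 3 : ℂ) • cst (gy * g1)) +
          (t1 y * x1) * ι ((2 / 3 : ℂ) • cst (gy * g2)) := by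
      rw [ex, ey, mul_add, prod t1 t1 _ _ _ _ ix0, prod t1 t1 _ _ _ _ ix1, mul_smul_comm,
        mul_smul_comm, ← map_mul, ← map_mul]
    have hcomp : t1.comp t2 = t2.comp t1 := by
      ext b
      exact c12 b
    have i1 : Intw ι (t2.comp t1) (t2 x0 * y) := ix0.mul iy
    have i2 : Intw ι (t2.comp t1) (-(t2 x1 * y)) := (ix1.mul iy).neg
    have i3 : Intw ι (t2.comp t1) (t1 y * x0) := hcomp ▸ iy.mul ix0
    have i4 : Intw ι (t2.comp t1) (t1 y * x1) := hcomp ▸ iy.mul ix1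
    have d1 : (gy * g1) 5 0 = 1 := by decide
    have d2 : (gy * g1) 6 0 = 0 := by decide
    have d3 : (gy * g2) 5 0 = 0 := by decide
    have d4 : (gy * g2) 6 0 = 1 := by decide
    have key := coeff_unique (ι := ι) (θ := t2.comp t1)
      ![(2 / 3 : ℂ) • cst (gy * g1), (2 / 3 : ℂ) • cst (gy * g2)] ![5, 6] ![0, 0]
      ![3 / 2, 3 / 2] (by
        intro j k
        fin_cases j <;> fin_cases k <;> simp [-map_mul, cst_apply, d1, d2, d3, d4])
      ![t1 y * x0, t1 y * x1] ![t2 x0 * y, -(t2 x1 * y)]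
      (by intro k; fin_cases k <;> assumption) (by intro k; fin_cases k <;> assumption)
      (by
        rw [Fin.sum_univ_two, Fin.sum_univ_two]
        exact hR.symm.trans (e12.symm.trans hL))
    exact ⟨key 0, key 1⟩
  have r13 : t1 z * x0 = t3 x1 * z ∧ t1 z * x1 = t3 x0 * z := by
    have hL : t3 (t1 (ι q) * ι 1) * (t3 (ι q) * ι 1) =
        (t3 x1 * z) * ι ((2 / 3 : ℂ) • cst (gz * g1)) +
          (t3 x0 * z) * ι ((2 / 3 : ℂ) • cst (gz * g2)) := by
      rw [ex, ez, map_add, add_mul, prod t3 t3 _ _ _ _ iz, prod t3 t3 _ _ _ _ iz, smul_mul_assoc,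
        smul_mul_assoc, ← map_mul, ← map_mul, g1z, g2z, add_comm]
    have hR : t1 (t3 (ι q) * ι 1) * (t1 (ι q) * ι 1) =
        (t1 z * x0) * ι ((2 / 3 : ℂ) • cst (gz * g1)) +
          (t1 z * x1) * ι ((2 / 3 : ℂ) • cst (gz * g2)) := by
      rw [ex, ez, mul_add, prod t1 t1 _ _ _ _ ix0, prod t1 t1 _ _ _ _ ix1, mul_smul_comm,
        mul_smul_comm, ← map_mul, ← map_mul]
    have hcomp : t1.comp t3 = t3.comp t1 := by
      ext b
      exact c13 b
    have i1 : Intw ι (t3.comp t1) (t3 x0 * z) := ix0.mul iz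
    have i2 : Intw ι (t3.comp t1) (t3 x1 * z) := ix1.mul iz
    have i3 : Intw ι (t3.comp t1) (t1 z * x0) := hcomp ▸ iz.mul ix0
    have i4 : Intw ι (t3.comp t1) (t1 z * x1) := hcomp ▸ iz.mul ix1
    have d1 : (gz * g1) 5 0 = 1 := by decide
    have d2 : (gz * g1) 6 0 = 0 := by decide
    have d3 : (gz * g2) 5 0 = 0 := by decide
    have d4 : (gz * g2) 6 0 = 1 := by decide
    have key := coeff_unique (ι := ι) (θ := t3.comp t1)
      ![(2 / 3 : ℂ) • cst (gz * g1), (2 / 3 : ℂ) • cst (gz * g2)] ![5, 6] ![0, 0]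
      ![3 / 2, 3 / 2] (by
        intro j k
        fin_cases j <;> fin_cases k <;> simp [-map_mul, cst_apply, d1, d2, d3, d4])
      ![t1 z * x0, t1 z * x1] ![t3 x1 * z, t3 x0 * z]
      (by intro k; fin_cases k <;> assumption) (by intro k; fin_cases k <;> assumption)
      (by
        rw [Fin.sum_univ_two, Fin.sum_univ_two]
        exact hR.symm.trans (e13.symm.trans hL))
    exact ⟨key 0, key 1⟩
  have r23 : t2 z * y = t3 y * z := by
    have hL : t3 (t2 (ι q) * ι 1) * (t3 (ι q) * ι 1) = (t3 y * z) * ι (cst (gz * gy)) := by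
      rw [ey, ez, prod t3 t3 _ _ _ _ iz, ← map_mul, gyz]
    have hR : t2 (t3 (ι q) * ι 1) * (t2 (ι q) * ι 1) = (t2 z * y) * ι (cst (gz * gy)) := by
      rw [ey, ez, prod t2 t2 _ _ _ _ iy, ← map_mul]
    have hcomp : t2.comp t3 = t3.comp t2 := by
      ext b
      exact c23 b
    have i1 : Intw ι (t3.comp t2) (t3 y * z) := iy.mul iz
    have i3 : Intw ι (t3.comp t2) (t2 z * y) := hcomp ▸ iz.mul iy
    have d1 : (gz * gy) 7 0 = 1 := by decide
    exact coeff_unique (ι := ι) (θ := t3.comp t2)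
      ![cst (gz * gy)] ![7] ![0] ![1] (by
        intro j k
        fin_cases j; fin_cases k; simp [-map_mul, cst_apply, d1])
      ![t2 z * y] ![t3 y * z]
      (by intro k; fin_cases k; assumption) (by intro k; fin_cases k; assumption)
      (by
        rw [Fin.sum_univ_one, Fin.sum_univ_one]
        exact hR.symm.trans (e23.symm.trans hL)) 0
  -- going around the hexagon
  have hA : t1 (t2 z * y) * x0 = t2 (t3 x1) * (t2 z * y) := by
    rw [map_mul, mul_assoc, r12.1, c12, ← mul_assoc, ← map_mul, r13.1, map_mul, mul_assoc]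
  have hB : t1 (t3 y * z) * x0 = -(t2 (t3 x1) * (t2 z * y)) := by
    rw [map_mul, mul_assoc, r13.1, c13, ← mul_assoc, ← map_mul, r12.2, map_neg, map_mul, neg_mul,
      mul_assoc, ← r23, c23]
  have h0 : t2 (t3 x1) * (t2 z * y) = 0 := by
    rw [← r23, hA] at hB
    have h4 : (2 : ℂ) • (t2 (t3 x1) * (t2 z * y)) = 0 := by
      rw [two_smul]
      nth_rewrite 1 [hB]
      simp
    exact (smul_eq_zero_iff_right (two_ne_zero)).1 h4
  have nx : star x1 * x1 = ι 1 := by
    have := hx2 1 1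
    rwa [if_pos rfl] at this
  have ny : star y * y = ι 1 := by
    have := hy2 0 0
    rwa [if_pos rfl] at this
  have nz : star z * z = ι 1 := by
    have := hz2 0 0
    rwa [if_pos rfl] at this
  have n1 : star (t2 (t3 x1) * (t2 z * y)) * (t2 (t3 x1) * (t2 z * y)) = ι 1 := by
    have e1 : star (t2 (t3 x1)) * t2 (t3 x1) = t2 (t3 (ι 1)) := by
      rw [← map_star, ← map_star, ← map_mul, ← map_mul, nx]
    have e2 : t2 (t3 (ι 1)) * (t2 z * y) = t2 z * y := by
      rw [← mul_assoc, ← map_mul, iz.left]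
    have e3 : star (t2 z) * t2 z = t2 (ι 1) := by
      rw [← map_star, ← map_mul, nz]
    rw [star_mul, mul_assoc, ← mul_assoc (star (t2 (t3 x1))), e1, e2, star_mul, mul_assoc,
      ← mul_assoc (star (t2 z)), e3, iy.left, ny]
  rw [← n1, h0, star_zero, zero_mul]

end Pool.Agent.Q190.ND
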