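import Pool.Agent.Q190.ND.Defs
import Pool.Agent.Q190.ND.Mat

/-!
# Commuting CP maps without dilation: the example
-/

set_option autoImplicit false

open Matrix
open scoped InnerProductSpace ComplexOrder

namespace Pool.Agent.Q190.ND

universe u v

section Kraus

variable {H : Type u} [NormedAddCommGroup H] [InnerProductSpace ℂ H] [CompleteSpace H]

/-- all bounded operators -/
noncomputable def full (H : Type u) [NormedAddCommGroup H] [InnerProductSpace ℂ H]
    [CompleteSpace H] : VonNeumannAlgebra H where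
  toStarSubalgebra := ⊤
  centralizer_centralizer' := by
    apply Set.eq_univ_of_forall
    intro x
    rw [Set.mem_centralizer_iff]
    intro y hy
    rw [Set.mem_centralizer_iff] at hy
    exact (hy x trivial).symm

lemma mem_full (a : H →L[ℂ] H) : a ∈ full H := trivial

lemma kraus_ucp {κ : Type} [Fintype κ] (L : κ → (H →L[ℂ] H)) (hL : ∑ k, star (L k) * L k = 1)
    (T : (H →L[ℂ] H) → (H →L[ℂ] H)) (hT : ∀ a, T a = ∑ k, star (L k) * a * L k) :
    IsUnitalNormalCP (full H) T := by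
  have hin : ∀ (a : H →L[ℂ] H) (ξ η : H), ⟪ξ, T a η⟫_ℂ = ∑ k, ⟪L k ξ, a (L k η)⟫_ℂ := by
    intro a ξ η
    rw [hT, _root_.sum_apply, inner_sum]
    refine Finset.sum_congr rfl fun k _ => ?_
    rw [mul_apply_eq_comp, mul_apply_eq_comp,
      ContinuousLinearMap.star_eq_adjoint, ContinuousLinearMap.adjoint_inner_right]
  have hsq : ∀ ξ : H, ∑ k, ‖L k ξ‖ ^ 2 = ‖ξ‖ ^ 2 := by
    intro ξ
    have h1 : ⟪ξ, (∑ k, star (L k) * L k : H →L[ℂ] H) ξ⟫_ℂ = ∑ k, ⟪L k ξ, L k ξ⟫_ℂ := by
      rw [_root_.sum_apply, inner_sum]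
      refine Finset.sum_congr rfl fun k _ => ?_
      rw [mul_apply_eq_comp, ContinuousLinearMap.star_eq_adjoint,
        ContinuousLinearMap.adjoint_inner_right]
    rw [hL, one_apply_eq_self, inner_self_eq_norm_sq_to_K] at h1
    have h2 : ∀ k, ⟪L k ξ, L k ξ⟫_ℂ = ((‖L k ξ‖ ^ 2 : ℝ) : ℂ) := by
      intro k
      rw [inner_self_eq_norm_sq_to_K]
      push_cast
      rfl
    simp only [h2] at h1
    rw [← Complex.ofReal_sum] at h1
    have h3 : ((‖ξ‖ ^ 2 : ℝ) : ℂ) = ((∑ k, ‖L k ξ‖ ^ 2 : ℝ) : ℂ) := by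
      rw [← h1]
      push_cast
      rfl
    exact (Complex.ofReal_injective h3).symm
  refine ⟨fun _ _ => trivial, ?_, ?_, ?_, ?_, ?_, ?_⟩
  · intro a _ b _
    rw [hT, hT, hT, ← Finset.sum_add_distrib]
    refine Finset.sum_congr rfl fun k _ => ?_
    rw [mul_add, add_mul]
  · intro c a _
    rw [hT, hT, Finset.smul_sum]
    refine Finset.sum_congr rfl fun k _ => ?_
    rw [mul_smul_comm, smul_mul_assoc]
  · rw [hT]
    simp only [mul_one]
    exact hL
  · intro a _
    refine ContinuousLinearMap.opNorm_le_bound _ (norm_nonneg _) fun η => ?_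
    have h1 : ‖T a η‖ ^ 2 ≤ ‖a‖ * ‖η‖ * ‖T a η‖ := by
      have h2 : ‖T a η‖ ^ 2 = ‖⟪T a η, T a η⟫_ℂ‖ := by
        rw [inner_self_eq_norm_sq_to_K]
        simp
      rw [h2, hin]
      calc ‖∑ k, ⟪L k (T a η), a (L k η)⟫_ℂ‖ ≤ ∑ k, ‖⟪L k (T a η), a (L k η)⟫_ℂ‖ :=
            norm_sum_le _ _
        _ ≤ ∑ k, ‖a‖ * (‖L k (T a η)‖ * ‖L k η‖) := by
            refine Finset.sum_le_sum fun k _ => ?_
            refine (norm_inner_le_norm _ _).trans ?_
            have := a.le_opNorm (L k η)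
            nlinarith [norm_nonneg (L k (T a η)), norm_nonneg (L k η)]
        _ = ‖a‖ * ∑ k, ‖L k (T a η)‖ * ‖L k η‖ := by rw [Finset.mul_sum]
        _ ≤ ‖a‖ * (‖T a η‖ * ‖η‖) := by
            refine mul_le_mul_of_nonneg_left ?_ (norm_nonneg _)
            have := Finset.sum_mul_sq_le_sq_mul_sq Finset.univ (fun k => ‖L k (T a η)‖)
              (fun k => ‖L k η‖)
            rw [hsq, hsq] at this
            refine le_of_sq_le_sq ?_ (by positivity)
            rw [mul_pow]
            exact this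
        _ = ‖a‖ * ‖η‖ * ‖T a η‖ := by ring
    by_cases h3 : ‖T a η‖ = 0
    · rw [h3]; positivity
    · have h4 : 0 < ‖T a η‖ := lt_of_le_of_ne (norm_nonneg _) (Ne.symm h3)
      nlinarith
  · intro m a ξ _
    have h1 : ∑ i, ∑ j, ⟪ξ i, T (star (a i) * a j) (ξ j)⟫_ℂ =
        ∑ k, ⟪∑ i, a i (L k (ξ i)), ∑ i, a i (L k (ξ i))⟫_ℂ := by
      simp only [hin]
      simp only [inner_sum, sum_inner]
      have : ∀ i j, ∑ k, ⟪L k (ξ i), (star (a i) * a j) (L k (ξ j))⟫_ℂ =
          ∑ k, ⟪a i (L k (ξ i)), a j (L k (ξ j))⟫_ℂ := by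
        intro i j
        refine Finset.sum_congr rfl fun k _ => ?_
        rw [mul_apply_eq_comp, ContinuousLinearMap.star_eq_adjoint,
          ContinuousLinearMap.adjoint_inner_right]
      simp only [this]
      rw [Finset.sum_comm]
      have h2 : ∀ j, ∑ i, ∑ k, ⟪a i (L k (ξ i)), a j (L k (ξ j))⟫_ℂ =
          ∑ k, ∑ i, ⟪a i (L k (ξ i)), a j (L k (ξ j))⟫_ℂ := fun j => Finset.sum_comm
      simp only [h2]
      rw [Finset.sum_comm]
    rw [h1]
    refine Finset.sum_nonneg fun k _ => ?_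
    rw [inner_self_eq_norm_sq_to_K]
    have : (0 : ℂ) ≤ ((‖∑ i, a i (L k (ξ i))‖ ^ 2 : ℝ) : ℂ) :=
      Complex.zero_le_real.2 (by positivity)
    simpa using this
  · intro ξ η
    have e := Fintype.equivFin κ
    let f : H → ℕ → H := fun x k => if h : k < Fintype.card κ then L (e.symm ⟨k, h⟩) x else 0
    have hsum : ∀ x, Summable fun k => ‖f x k‖ ^ 2 := by
      intro x
      refine summable_of_ne_finset_zero (s := Finset.range (Fintype.card κ)) fun k hk => ?_
      rw [Finset.mem_range] at hk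
      simp only [f, dif_neg hk]
      simp
    refine ⟨f ξ, f η, hsum ξ, hsum η, fun a _ => ?_⟩
    rw [hin, tsum_eq_sum (s := Finset.range (Fintype.card κ)), Finset.sum_range,
      ← e.symm.sum_comp]
    · refine Finset.sum_congr rfl fun k _ => ?_
      simp only [f, k.isLt, dite_true]
    · intro k hk
      rw [Finset.mem_range] at hk
      simp only [f, dif_neg hk]
      simp

end Kraus

section Example

/-- the Hilbert space of the example -/
abbrev H9 := EuclideanSpace ℂ N9

/-- matrices as operators -/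
noncomputable abbrev O : Matrix N9 N9 ℂ ≃⋆ₐ[ℂ] (H9 →L[ℂ] H9) := toEuclideanCLM (n := N9) (𝕜 := ℂ)

/-- the map on operators -/
noncomputable def TO {κ : Type} [Fintype κ] (K : κ → Matrix N9 N9 ℂ) (a : H9 →L[ℂ] H9) :
    H9 →L[ℂ] H9 := O (TT K (O.symm a))

/-- the full Kraus family -/
noncomputable def LL {κ : Type} (K : κ → Matrix N9 N9 ℂ) (r : N9 → ℝ) :
    κ ⊕ N9 → Matrix N9 N9 ℂ :=
  Sum.elim K fun m => (r m : ℂ) • single 8 m 1

lemma LL_sum {κ : Type} [Fintype κ] (K : κ → Matrix N9 N9 ℂ) (r : N9 → ℝ)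
    (hr : 1 - Phi K 1 = diagonal fun m => ((r m : ℂ)) ^ 2) (M : Matrix N9 N9 ℂ) :
    TT K M = ∑ k, (LL K r k)ᴴ * M * LL K r k := by
  rw [Fintype.sum_sum_type, TT]
  congr 1
  rw [hr]
  have h1 : ∀ m : N9, (LL K r (Sum.inr m))ᴴ * M * LL K r (Sum.inr m) =
      M 8 8 • ((r m : ℂ) ^ 2 • single m m 1) := by
    intro m
    show ((r m : ℂ) • single 8 m 1)ᴴ * M * ((r m : ℂ) • single 8 m 1) = _
    rw [conjTranspose_smul, conjTranspose_single, star_one, smul_mul_assoc, smul_mul_assoc,
      mul_smul_comm, sss, smul_smul, smul_smul, smul_smul]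
    congr 1
    have : star (r m : ℂ) = r m := Complex.conj_ofReal _
    rw [this]
    ring
  simp only [h1]
  rw [← Finset.smul_sum]
  congr 1
  ext i j
  rw [Matrix.sum_apply]
  simp only [diagonal_apply, Matrix.smul_apply, single_apply]
  by_cases h : i = j
  · subst h
    simp
  · rw [if_neg h]
    symm
    refine Finset.sum_eq_zero fun c _ => ?_
    rw [if_neg, smul_zero]
    rintro ⟨rfl, rfl⟩
    exact h rfl

lemma TO_ucp {κ : Type} [Fintype κ] (K : κ → Matrix N9 N9 ℂ) (r : N9 → ℝ)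
    (hr : 1 - Phi K 1 = diagonal fun m => ((r m : ℂ)) ^ 2) :
    IsUnitalNormalCP (full H9) (TO K) := by
  refine kraus_ucp (fun k => O (LL K r k)) ?_ _ ?_
  · have := LL_sum K r hr 1
    rw [TT_one] at this
    have h2 := congrArg O this
    rw [map_one, map_sum] at h2
    rw [h2]
    refine Finset.sum_congr rfl fun k _ => ?_
    rw [mul_one, map_mul, ← star_eq_conjTranspose, map_star]
  · intro a
    rw [TO, LL_sum K r hr, map_sum]
    refine Finset.sum_congr rfl fun k _ => ?_
    rw [map_mul, map_mul, ← star_eq_conjTranspose, map_star]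
    congr 2
    exact O.apply_symm_apply a

lemma Phi_add {κ : Type} [Fintype κ] (K : κ → Matrix N9 N9 ℂ) (M N : Matrix N9 N9 ℂ) :
    Phi K (M + N) = Phi K M + Phi K N := by
  unfold Phi
  rw [← Finset.sum_add_distrib]
  refine Finset.sum_congr rfl fun k _ => ?_
  rw [mul_add, add_mul]

lemma Phi_smul {κ : Type} [Fintype κ] (K : κ → Matrix N9 N9 ℂ) (c : ℂ) (M : Matrix N9 N9 ℂ) :
    Phi K (c • M) = c • Phi K M := by
  unfold Phi
  rw [Finset.smul_sum]
  refine Finset.sum_congr rfl fun k _ => ?_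
  rw [mul_smul_comm, smul_mul_assoc]

lemma Phi_88 {κ : Type} [Fintype κ] {K : κ → Matrix N9 N9 ℂ} (hK : Cut K)
    (M : Matrix N9 N9 ℂ) : Phi K M 8 8 = 0 := by
  have h : w * Phi K M * w = 0 := by rw [mul_assoc, Phi_w hK, mul_zero]
  rw [entry_w] at h
  have := congrFun (congrFun h 8) 8
  rw [w_eq] at this
  simpa using this

lemma TT_TT {κ κ' : Type} [Fintype κ] [Fintype κ'] {K : κ → Matrix N9 N9 ℂ}
    {K' : κ' → Matrix N9 N9 ℂ} (hK' : Cut K') (M : Matrix N9 N9 ℂ) :
    TT K (TT K' M) = Phi K (Phi K' M) + M 8 8 • (1 - Phi K (Phi K' 1)) := by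
  have h1 : TT K' M 8 8 = M 8 8 := by
    unfold TT
    rw [Matrix.add_apply, Phi_88 hK', Matrix.smul_apply, Matrix.sub_apply, Phi_88 hK']
    simp
  rw [TT, h1, TT, Phi_add, Phi_smul, sub_eq_add_neg (1 : Matrix N9 N9 ℂ) (Phi K' 1), Phi_add,
    show -Phi K' 1 = (-1 : ℂ) • Phi K' 1 by simp, Phi_smul]
  simp only [smul_sub, smul_add]
  rw [neg_one_smul, smul_neg]
  abel

lemma TT_comm {κ κ' : Type} [Fintype κ] [Fintype κ'] {K : κ → Matrix N9 N9 ℂ}
    {K' : κ' → Matrix N9 N9 ℂ} (hK : Cut K) (hK' : Cut K')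
    (h : ∀ M, Phi K (Phi K' M) = Phi K' (Phi K M)) (M : Matrix N9 N9 ℂ) :
    TT K (TT K' M) = TT K' (TT K M) := by
  rw [TT_TT hK', TT_TT hK, h, h]

lemma TO_comm {κ κ' : Type} [Fintype κ] [Fintype κ'] {K : κ → Matrix N9 N9 ℂ}
    {K' : κ' → Matrix N9 N9 ℂ} (hK : Cut K) (hK' : Cut K')
    (h : ∀ M, Phi K (Phi K' M) = Phi K' (Phi K M)) (a : H9 →L[ℂ] H9) :
    TO K (TO K' a) = TO K' (TO K a) := by
  unfold TO
  rw [O.symm_apply_apply, O.symm_apply_apply, TT_comm hK hK' h]

lemma Phi_one1 (A B : Matrix N9 N9 ℂ) (M : Matrix N9 N9 ℂ) :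
    Phi ![A] (Phi ![B] M) = (B * A)ᴴ * M * (B * A) := by
  unfold Phi
  simp only [Fin.sum_univ_one, cons_val_zero, conjTranspose_mul]
  noncomm_ring

lemma phi12 (M : Matrix N9 N9 ℂ) : Phi K1 (Phi KY M) = Phi KY (Phi K1 M) := by
  have e1 : cst g1 * cst gy = cst gy * cst g1 := by rw [← map_mul, g1y, map_mul]
  have e2 : cst g2 * cst gy = -(cst gy * cst g2) := by rw [← map_mul, g2y, map_neg, map_mul]
  have hL : Phi K1 (Phi KY M) = ((2 / 3 : ℂ) * (2 / 3)) •
      ((cst gy * cst g1)ᴴ * M * (cst gy * cst g1) + (cst gy * cst g2)ᴴ * M * (cst gy * cst g2)) := by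
    unfold Phi K1 KY
    simp only [Fin.sum_univ_two, Fin.sum_univ_one, cons_val_zero, cons_val_one,
      conjTranspose_smul, conjTranspose_mul, smul_mul_assoc, mul_smul_comm, smul_smul, smul_add]
    simp only [Complex.star_def, map_div₀, map_ofNat]
    simp only [mul_assoc]
  have hR : Phi KY (Phi K1 M) = ((2 / 3 : ℂ) * (2 / 3)) •
      ((cst g1 * cst gy)ᴴ * M * (cst g1 * cst gy) + (cst g2 * cst gy)ᴴ * M * (cst g2 * cst gy)) := by
    unfold Phi K1 KY
    simp only [Fin.sum_univ_two, Fin.sum_univ_one, cons_val_zero, cons_val_one,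
      conjTranspose_smul, conjTranspose_mul, smul_mul_assoc, mul_smul_comm, smul_smul, smul_add,
      mul_add, add_mul]
    simp only [Complex.star_def, map_div₀, map_ofNat]
    simp only [mul_assoc]
  rw [hL, hR, e1, e2, conjTranspose_neg]
  simp only [neg_mul, mul_neg, neg_neg]

lemma phi13 (M : Matrix N9 N9 ℂ) : Phi K1 (Phi KZ M) = Phi KZ (Phi K1 M) := by
  have e1 : cst g1 * cst gz = cst gz * cst g2 := by rw [← map_mul, g1z, map_mul]
  have e2 : cst g2 * cst gz = cst gz * cst g1 := by rw [← map_mul, g2z, map_mul]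
  have hL : Phi K1 (Phi KZ M) = ((2 / 3 : ℂ) * (2 / 3)) •
      ((cst gz * cst g1)ᴴ * M * (cst gz * cst g1) + (cst gz * cst g2)ᴴ * M * (cst gz * cst g2)) := by
    unfold Phi K1 KZ
    simp only [Fin.sum_univ_two, Fin.sum_univ_one, cons_val_zero, cons_val_one,
      conjTranspose_smul, conjTranspose_mul, smul_mul_assoc, mul_smul_comm, smul_smul, smul_add]
    simp only [Complex.star_def, map_div₀, map_ofNat]
    simp only [mul_assoc]
  have hR : Phi KZ (Phi K1 M) = ((2 / 3 : ℂ) * (2 / 3)) •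
      ((cst g1 * cst gz)ᴴ * M * (cst g1 * cst gz) + (cst g2 * cst gz)ᴴ * M * (cst g2 * cst gz)) := by
    unfold Phi K1 KZ
    simp only [Fin.sum_univ_two, Fin.sum_univ_one, cons_val_zero, cons_val_one,
      conjTranspose_smul, conjTranspose_mul, smul_mul_assoc, mul_smul_comm, smul_smul, smul_add,
      mul_add, add_mul]
    simp only [Complex.star_def, map_div₀, map_ofNat]
    simp only [mul_assoc]
  rw [hL, hR, e1, e2, add_comm]

lemma phi23 (M : Matrix N9 N9 ℂ) : Phi KY (Phi KZ M) = Phi KZ (Phi KY M) := by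
  unfold KY KZ
  rw [Phi_one1, Phi_one1, ← map_mul, ← map_mul, gyz]

lemma diag1 : 1 - Phi K1 1 =
    diagonal fun m => (((![1 / 3, 1, 1, 1 / 3, 1 / 3, 1, 1, 1, 1] : N9 → ℝ) m : ℝ) : ℂ) ^ 2 := by
  have h1 : g1ᵀ * g1 + g2ᵀ * g2 = diagonal ![2, 0, 0, 2, 2, 0, 0, 0, 0] := by decide
  have hc : ∀ g : Matrix N9 N9 ℤ, (cst g)ᴴ = cst gᵀ := by
    intro g
    ext i j
    rw [conjTranspose_apply, cst_apply, cst_apply, transpose_apply]
    simp
  have h2 : Phi K1 1 = ((2 / 3 : ℂ) * (2 / 3)) • cst (g1ᵀ * g1 + g2ᵀ * g2) := by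
    unfold Phi K1
    simp only [Fin.sum_univ_two, cons_val_zero, cons_val_one,
      conjTranspose_smul, conjTranspose_mul, smul_mul_assoc, mul_smul_comm, smul_smul, smul_add,
      mul_one, hc, map_add, map_mul]
    simp only [Complex.star_def, map_div₀, map_ofNat]
  rw [h2, h1]
  ext i j
  rw [Matrix.sub_apply, Matrix.smul_apply, cst_apply, diagonal_apply, diagonal_apply,
    Matrix.one_apply]
  by_cases h : i = j
  · subst h
    rw [if_pos rfl, if_pos rfl, if_pos rfl]
    fin_cases i <;> norm_num [Fin.forall_fin_succ]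
  · rw [if_neg h, if_neg h, if_neg h]
    simp

lemma diagY : 1 - Phi KY 1 =
    diagonal fun m => (((![0, 0, 0, 1, 0, 1, 1, 1, 1] : N9 → ℝ) m : ℝ) : ℂ) ^ 2 := by
  have h1 : gyᵀ * gy = diagonal ![1, 1, 1, 0, 1, 0, 0, 0, 0] := by decide
  have hc : ∀ g : Matrix N9 N9 ℤ, (cst g)ᴴ = cst gᵀ := by
    intro g
    ext i j
    rw [conjTranspose_apply, cst_apply, cst_apply, transpose_apply]
    simp
  have h2 : Phi KY 1 = cst (gyᵀ * gy) := by
    unfold Phi KY
    simp only [Fin.sum_univ_one, cons_val_zero, mul_one, hc, map_mul]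
  rw [h2, h1]
  ext i j
  rw [Matrix.sub_apply, cst_apply, diagonal_apply, diagonal_apply,
    Matrix.one_apply]
  by_cases h : i = j
  · subst h
    rw [if_pos rfl, if_pos rfl, if_pos rfl]
    fin_cases i <;> norm_num
  · rw [if_neg h, if_neg h, if_neg h]
    simp

lemma diagZ : 1 - Phi KZ 1 =
    diagonal fun m => (((![0, 0, 0, 0, 1, 1, 1, 1, 1] : N9 → ℝ) m : ℝ) : ℂ) ^ 2 := by
  have h1 : gzᵀ * gz = diagonal ![1, 1, 1, 1, 0, 0, 0, 0, 0] := by decide
  have hc : ∀ g : Matrix N9 N9 ℤ, (cst g)ᴴ = cst gᵀ := by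
    intro g
    ext i j
    rw [conjTranspose_apply, cst_apply, cst_apply, transpose_apply]
    simp
  have h2 : Phi KZ 1 = cst (gzᵀ * gz) := by
    unfold Phi KZ
    simp only [Fin.sum_univ_one, cons_val_zero, mul_one, hc, map_mul]
  rw [h2, h1]
  ext i j
  rw [Matrix.sub_apply, cst_apply, diagonal_apply, diagonal_apply,
    Matrix.one_apply]
  by_cases h : i = j
  · subst h
    rw [if_pos rfl, if_pos rfl, if_pos rfl]
    fin_cases i <;> norm_num
  · rw [if_neg h, if_neg h, if_neg h]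
    simp

/-- The three maps of the example have no dilation. -/
theorem no_dilation {K : Type v} [NormedAddCommGroup K] [InnerProductSpace ℂ K] [CompleteSpace K]
    (V : H9 →ₗᵢ[ℂ] K) (B : VonNeumannAlgebra K) (θ : (Fin 3 → ℕ) → (K →L[ℂ] K) → (K →L[ℂ] K)) :
    ¬ IsDilation (full H9) (semigroup (TO K1) (TO KY) (TO KZ)) V B θ := by
  intro hD
  have hVV : compress V (1 : K →L[ℂ] K) = 1 := by
    ext1 x
    refine ext_inner_left ℂ fun y => ?_
    show ⟪y, (ContinuousLinearMap.adjoint V.toContinuousLinearMap) (V x)⟫_ℂ = ⟪y, x⟫_ℂ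
    rw [ContinuousLinearMap.adjoint_inner_right]
    exact V.inner_map_map y x
  have hVx : ∀ x, (ContinuousLinearMap.adjoint V.toContinuousLinearMap) (V x) = x := fun x =>
    DFunLike.congr_fun hVV x
  have e_mul : ∀ a b, extend V (a * b) = extend V a * extend V b := by
    intro a b
    ext x
    show V (a (b _)) = V (a (ContinuousLinearMap.adjoint V.toContinuousLinearMap (V (b _))))
    rw [hVx]
  have e_star : ∀ a, extend V (star a) = star (extend V a) := by
    intro a
    rw [ContinuousLinearMap.star_eq_adjoint, ContinuousLinearMap.star_eq_adjoint]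
    unfold extend
    rw [ContinuousLinearMap.adjoint_comp, ContinuousLinearMap.adjoint_comp,
      ContinuousLinearMap.adjoint_adjoint]
    rfl
  have hmemB : ∀ a, extend V a ∈ B := fun a => hD.extend_mem a trivial
  let ι : Matrix N9 N9 ℂ →⋆ₙₐ[ℂ] B.toStarSubalgebra :=
    { toFun := fun M => ⟨extend V (O M), hmemB _⟩
      map_smul' := by
        intro c M
        apply Subtype.ext
        show extend V (O (c • M)) = c • extend V (O M)
        rw [map_smul]
        ext x
        show V (c • _) = c • V _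
        rw [map_smul]
        rfl
      map_zero' := by
        apply Subtype.ext
        show extend V (O 0) = 0
        rw [map_zero]
        ext x
        show V 0 = 0
        rw [map_zero]
      map_add' := by
        intro M N
        apply Subtype.ext
        show extend V (O (M + N)) = extend V (O M) + extend V (O N)
        rw [map_add]
        ext x
        show V (_ + _) = V _ + V _
        rw [map_add]
        rfl
      map_mul' := by
        intro M N
        apply Subtype.ext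
        show extend V (O (M * N)) = extend V (O M) * extend V (O N)
        rw [map_mul, e_mul]
      map_star' := by
        intro M
        apply Subtype.ext
        show extend V (O (star M)) = star (extend V (O M))
        rw [map_star, e_star] }
  let t : (Fin 3 → ℕ) → (B.toStarSubalgebra →⋆ₙₐ[ℂ] B.toStarSubalgebra) := fun s =>
    { toFun := fun b => ⟨θ s b, hD.eSemigroup.mem s b b.2⟩
      map_smul' := fun c b => Subtype.ext (hD.eSemigroup.smul s c b b.2)
      map_zero' := by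
        apply Subtype.ext
        show θ s (0 : K →L[ℂ] K) = 0
        have := hD.eSemigroup.smul s 0 0 B.toStarSubalgebra.zero_mem
        rwa [zero_smul, zero_smul] at this
      map_add' := fun b c => Subtype.ext (hD.eSemigroup.add s b b.2 c c.2)
      map_mul' := fun b c => Subtype.ext (hD.eSemigroup.mul s b b.2 c c.2)
      map_star' := fun b => Subtype.ext (hD.eSemigroup.star s b b.2) }
  have tcomm : ∀ s s' b, t s (t s' b) = t s' (t s b) := by
    intro s s' b
    apply Subtype.ext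
    show θ s (θ s' b) = θ s' (θ s b)
    rw [hD.eSemigroup.comp s s' b b.2, hD.eSemigroup.comp s' s b b.2, add_comm]
  have hproper : ∀ x : B.toStarSubalgebra, star x * x = 0 → x = 0 := by
    intro x hx
    apply Subtype.ext
    have : star (x : K →L[ℂ] K) * x = 0 := congrArg Subtype.val hx
    exact (CStarRing.star_mul_self_eq_zero_iff _).1 this
  have hdil : ∀ {κ : Type} [Fintype κ] (L : κ → Matrix N9 N9 ℂ) (s : Fin 3 → ℕ),
      (∀ a, semigroup (TO K1) (TO KY) (TO KZ) s a = TO L a) →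
      ∀ M, ι 1 * t s (ι M) * ι 1 = ι (TT L M) := by
    intro κ _ L s hs M
    apply Subtype.ext
    show extend V (O 1) * θ s (extend V (O M)) * extend V (O 1) = extend V (O (TT L M))
    have h1 := hD.dilates s (O M) trivial
    rw [hs] at h1
    unfold TO at h1
    rw [O.symm_apply_apply] at h1
    rw [h1, map_one]
    rfl
  have h1 := hdil K1 ![1, 0, 0] (fun a => rfl)
  have h2 := hdil KY ![0, 1, 0] (fun a => rfl)
  have h3 := hdil KZ ![0, 0, 1] (fun a => rfl)
  have key := no_dil hproper ι (t ![1, 0, 0]) (t ![0, 1, 0]) (t ![0, 0, 1])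
    (tcomm _ _) (tcomm _ _) (tcomm _ _) h1 h2 h3
  have h4 : extend V (1 : H9 →L[ℂ] H9) = 0 := by
    have : extend V (O 1) = 0 := congrArg Subtype.val key
    rwa [map_one] at this
  have h5 : ∀ x : H9, x = 0 := by
    intro x
    have h6 : extend V (1 : H9 →L[ℂ] H9) (V x) = V x := by
      show V (ContinuousLinearMap.adjoint V.toContinuousLinearMap (V x)) = V x
      rw [hVx]
    rw [h4] at h6
    exact (map_eq_zero_iff V V.injective).1 h6.symm
  have h7 := h5 (EuclideanSpace.single 0 1)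
  have h8 := congrArg (fun v : H9 => v 0) h7
  simp at h8

end Example

end Pool.Agent.Q190.ND
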